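import Pool.Agent.K1H27.TP.Stm

set_option autoImplicit false

/-! Project TP, piece KL: a `1`-Lipschitz function of mean zero, integrated over mass `A`. -/

namespace Pool.Agent.K1H37.TP

open MeasureTheory Set Pool.Agent.K1H27.TP

theorem hinge_left (u v A : ℝ) (g : ℝ → ℝ) (hg : Continuous g)
    (hL : ∀ x ∈ Icc u v, ∀ y ∈ Icc u v, |g x - g y| ≤ |x - y|)
    (z w : ℝ) (hz : z ∈ Icc u v) (hw : w ∈ Icc u v) (hzw : z ≤ w) (hgz : g z ≤ 0)
    (hmax : ∀ x ∈ Icc u v, g x ≤ g w) (hw0 : 0 < g w)
    (hA : volume.real {x | x ∈ Icc u v ∧ 0 < g x} ≤ A) :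
    ∫ x in u..v, max (g x) 0 ≤ A ^ 2 / 2 := by
  obtain ⟨p, ⟨hp1, hp2⟩, hp3⟩ : ∃ p, IsGreatest {x | x ∈ Icc z w ∧ g x ≤ 0} p := by
    apply IsCompact.exists_isGreatest
    · have : {x | x ∈ Icc z w ∧ g x ≤ 0} = Icc z w ∩ g ⁻¹' (Iic 0) := rfl
      rw [this]
      exact isCompact_Icc.inter_right (isClosed_Iic.preimage hg)
    · exact ⟨z, ⟨le_rfl, hzw⟩, hgz⟩
  have hpuv : p ∈ Icc u v := ⟨hz.1.trans hp1.1, hp1.2.trans hw.2⟩
  obtain ⟨a, ha⟩ : ∃ a, a = g w := ⟨_, rfl⟩
  rw [← ha] at hw0 hmax
  have hpa : p + a ≤ w := by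
    have := hL w hw p hpuv
    rw [abs_of_nonneg (by linarith [hp1.2] : (0:ℝ) ≤ w - p)] at this
    have := (le_abs_self _).trans this
    linarith
  obtain ⟨S, hS⟩ : ∃ S, S = {x | x ∈ Icc u v ∧ 0 < g x} := ⟨_, rfl⟩
  rw [← hS] at hA
  have hSm : MeasurableSet S := by
    rw [hS]
    exact measurableSet_Icc.inter (measurableSet_lt measurable_const hg.measurable)
  have hSf : volume S < ⊤ := by
    refine (measure_mono (t := Icc u v) fun x hx => ?_).trans_lt measure_Icc_lt_top
    rw [hS] at hx
    exact hx.1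
  have hpt : ∀ x ∈ Ioc u v, max (g x) 0 ≤ S.indicator (fun _ => a) x -
      (Ioc p (p + a)).indicator (fun x => a - (x - p)) x := by
    intro x hx
    have hx' : x ∈ Icc u v := ⟨hx.1.le, hx.2⟩
    by_cases h1 : x ∈ Ioc p (p + a)
    · have h2 : 0 < g x := by
        by_contra hcon
        push Not at hcon
        have := hp3 (show x ∈ {x | x ∈ Icc z w ∧ g x ≤ 0} from
          ⟨⟨hp1.1.trans h1.1.le, h1.2.trans hpa⟩, hcon⟩)
        exact absurd h1.1 (not_lt.mpr this)
      have h3 : x ∈ S := by
        rw [hS]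
        exact ⟨hx', h2⟩
      rw [indicator_of_mem h3, indicator_of_mem h1, max_eq_left h2.le]
      have := hL x hx' p hpuv
      rw [abs_of_nonneg (by linarith [h1.1] : (0:ℝ) ≤ x - p)] at this
      have := (le_abs_self _).trans this
      linarith
    · rw [indicator_of_notMem h1, sub_zero]
      by_cases h2 : 0 < g x
      · have h3 : x ∈ S := by
          rw [hS]
          exact ⟨hx', h2⟩
        rw [indicator_of_mem h3, max_eq_left h2.le]
        exact hmax x hx'
      · have h3 : x ∉ S := by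
          rw [hS]
          exact fun h => h2 h.2
        rw [indicator_of_notMem h3, max_eq_right (not_lt.mp h2)]
  have huv : u ≤ v := hz.1.trans hz.2
  have hi1 : IntegrableOn (fun x => max (g x) 0) (Ioc u v) :=
    ((hg.max continuous_const).integrableOn_Icc).mono_set Ioc_subset_Icc_self
  have hi2 : IntegrableOn (fun x => S.indicator (fun _ => a) x) (Ioc u v) :=
    Integrable.integrableOn
      ((integrable_indicator_iff hSm).mpr (integrableOn_const (μ := volume) hSf.ne))
  have hi3 : IntegrableOn (fun x => (Ioc p (p + a)).indicator (fun x => a - (x - p)) x)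
      (Ioc u v) := by
    refine Integrable.integrableOn ((integrable_indicator_iff measurableSet_Ioc).mpr ?_)
    exact ((by fun_prop : Continuous fun x : ℝ => a - (x - p)).integrableOn_Icc).mono_set
      Ioc_subset_Icc_self
  have h1 : ∫ x in Ioc u v, S.indicator (fun _ => a) x ≤ a * A := by
    rw [setIntegral_indicator hSm, setIntegral_const, smul_eq_mul, mul_comm]
    refine mul_le_mul_of_nonneg_left (le_trans ?_ hA) hw0.le
    exact measureReal_mono inter_subset_right hSf.ne
  have h2 : ∫ x in Ioc u v, (Ioc p (p + a)).indicator (fun x => a - (x - p)) x = a ^ 2 / 2 := by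
    rw [setIntegral_indicator measurableSet_Ioc, inter_eq_right.mpr
      (Ioc_subset_Ioc hpuv.1 (hpa.trans hw.2)),
      ← intervalIntegral.integral_of_le (by linarith)]
    have : ∀ x ∈ uIcc p (p + a), HasDerivAt (fun x => a * x - (x - p) ^ 2 / 2) (a - (x - p)) x := by
      intro x _
      have h : HasDerivAt (fun x : ℝ => a * x - (x - p) ^ 2 / 2)
          (a * 1 - ((2 : ℕ) * (x - p) ^ (2 - 1) * 1) / 2) x :=
        (((hasDerivAt_id' x).const_mul a).sub
          ((((hasDerivAt_id' x).sub_const p).pow 2).div_const 2))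
      have e : a * 1 - ((2 : ℕ) * (x - p) ^ (2 - 1) * 1) / 2 = a - (x - p) := by
        norm_num
      rwa [e] at h
    rw [intervalIntegral.integral_eq_sub_of_hasDerivAt this
      ((by fun_prop : Continuous fun x : ℝ => a - (x - p)).intervalIntegrable _ _)]
    ring
  rw [intervalIntegral.integral_of_le huv]
  calc ∫ x in Ioc u v, max (g x) 0
      ≤ ∫ x in Ioc u v, (S.indicator (fun _ => a) x -
          (Ioc p (p + a)).indicator (fun x => a - (x - p)) x) :=
        setIntegral_mono_on hi1 (hi2.sub hi3) measurableSet_Ioc hpt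
    _ = (∫ x in Ioc u v, S.indicator (fun _ => a) x) -
          ∫ x in Ioc u v, (Ioc p (p + a)).indicator (fun x => a - (x - p)) x :=
        integral_sub hi2 hi3
    _ ≤ A ^ 2 / 2 := by
        rw [h2]
        nlinarith [sq_nonneg (a - A)]

theorem hinge (u v A : ℝ) (g : ℝ → ℝ) (hg : Continuous g)
    (hL : ∀ x ∈ Icc u v, ∀ y ∈ Icc u v, |g x - g y| ≤ |x - y|)
    (hz : ∃ z ∈ Icc u v, g z ≤ 0)
    (hA : volume.real {x | x ∈ Icc u v ∧ 0 < g x} ≤ A) :
    ∫ x in u..v, max (g x) 0 ≤ A ^ 2 / 2 := by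
  obtain ⟨z, hz, hgz⟩ := hz
  obtain ⟨w, hw, hmax⟩ := isCompact_Icc.exists_isMaxOn ⟨z, hz⟩ hg.continuousOn
  have hmax' : ∀ x ∈ Icc u v, g x ≤ g w := fun x hx => hmax hx
  have huv : u ≤ v := hz.1.trans hz.2
  rcases le_or_gt (g w) 0 with h0 | h0
  · have : ∫ x in u..v, max (g x) 0 = 0 := by
      rw [intervalIntegral.integral_congr (g := fun _ => (0 : ℝ))]
      · simp
      · intro x hx
        rw [uIcc_of_le huv] at hx
        exact max_eq_right ((hmax' x hx).trans h0)
    rw [this]
    positivity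
  rcases le_total z w with h | h
  · exact hinge_left u v A g hg hL z w hz hw h hgz hmax' h0 hA
  · have h1 := hinge_left (-v) (-u) A (fun x => g (-x)) (hg.comp continuous_neg)
      (fun x hx y hy => by
        have := hL (-x) ⟨by linarith [hx.2], by linarith [hx.1]⟩ (-y)
          ⟨by linarith [hy.2], by linarith [hy.1]⟩
        refine this.trans (le_of_eq ?_)
        rw [← abs_neg]
        congr 1
        ring)
      (-z) (-w) ⟨by linarith [hz.2], by linarith [hz.1]⟩ ⟨by linarith [hw.2], by linarith [hw.1]⟩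
      (by linarith) (by simpa using hgz)
      (fun x hx => by
        have := hmax' (-x) ⟨by linarith [hx.2], by linarith [hx.1]⟩
        simpa using this)
      (by simpa using h0)
      (by
        refine le_trans (le_of_eq ?_) hA
        have hset : {x : ℝ | x ∈ Icc (-v) (-u) ∧ 0 < g (-x)} =
            -{x | x ∈ Icc u v ∧ 0 < g x} := by
          ext x
          simp only [mem_ofPred_eq, mem_neg, mem_Icc]
          constructor
          · rintro ⟨⟨h1, h2⟩, h3⟩
            exact ⟨⟨by linarith, by linarith⟩, h3⟩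
          · rintro ⟨⟨h1, h2⟩, h3⟩
            exact ⟨⟨by linarith, by linarith⟩, h3⟩
        rw [hset, Measure.real, Measure.real, Measure.measure_neg])
    rw [intervalIntegral.integral_comp_neg (fun x => max (g x) 0), neg_neg, neg_neg] at h1
    exact h1

theorem t_KL : S_KL := by
  intro u v h η huv hL hh h0 hη hη0 hη1
  have hCo : IsCompact (Icc u v) := isCompact_Icc
  obtain ⟨C, hC⟩ := hCo.exists_bound_of_continuousOn hh.continuousOn
  have hC' : ∀ x ∈ Icc u v, |h x| ≤ C := fun x hx => hC x hx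
  have hC0 : 0 ≤ C := (abs_nonneg _).trans (hC' u ⟨le_rfl, huv.le⟩)
  have hηi : IntervalIntegrable η volume u v := by
    rw [intervalIntegrable_iff_integrableOn_Ioc_of_le huv.le]
    refine Measure.integrableOn_of_bounded (M := 1) measure_Ioc_lt_top.ne
      hη.aestronglyMeasurable ?_
    refine Filter.Eventually.of_forall fun x => ?_
    rw [Real.norm_eq_abs, abs_of_nonneg (hη0 x)]
    exact hη1 x
  have hηh : ∀ k : ℝ → ℝ, Continuous k → IntervalIntegrable (fun x => η x * k x) volume u v := by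
    intro k hk
    exact hηi.mul_continuousOn hk.continuousOn
  obtain ⟨A, hA⟩ : ∃ A, A = ∫ x in u..v, η x := ⟨_, rfl⟩
  rw [← hA]
  have hA0 : 0 ≤ A := by
    rw [hA]
    exact intervalIntegral.integral_nonneg huv.le fun x _ => hη0 x
  have hAl : A ≤ v - u := by
    rw [hA]
    calc ∫ x in u..v, η x ≤ ∫ x in u..v, (1 : ℝ) :=
          intervalIntegral.integral_mono_on huv.le hηi (by simp) fun x _ => hη1 x
      _ = v - u := by simp
  -- bound of the integral of `η h` for a level
  have hlev : ∀ ρ : ℝ, ∫ x in u..v, η x * h x ≤ ρ * A + ∫ x in u..v, max (h x - ρ) 0 := by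
    intro ρ
    have h1 : ∫ x in u..v, η x * h x = (∫ x in u..v, η x * (h x - ρ)) + ρ * A := by
      rw [hA, ← intervalIntegral.integral_const_mul, ← intervalIntegral.integral_add
        (hηh _ (by fun_prop)) (hηi.const_mul ρ)]
      refine intervalIntegral.integral_congr fun x _ => ?_
      show η x * h x = η x * (h x - ρ) + ρ * η x
      ring
    rw [h1, add_comm]
    refine add_le_add le_rfl (intervalIntegral.integral_mono_on huv.le (hηh _ (by fun_prop))
      ((by fun_prop : Continuous fun x => max (h x - ρ) 0).intervalIntegrable _ _) fun x _ => ?_)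
    calc η x * (h x - ρ) ≤ η x * max (h x - ρ) 0 :=
          mul_le_mul_of_nonneg_left (le_max_left _ _) (hη0 x)
      _ ≤ 1 * max (h x - ρ) 0 := mul_le_mul_of_nonneg_right (hη1 x) (le_max_right _ _)
      _ = max (h x - ρ) 0 := one_mul _
  rcases hAl.eq_or_lt with hAe | hAlt
  · -- full mass
    have h1 : ∫ x in u..v, η x * h x = (∫ x in u..v, (η x - 1) * h x) := by
      have h2 : ∫ x in u..v, (η x - 1) * h x =
          (∫ x in u..v, η x * h x) - ∫ x in u..v, h x := by
        rw [← intervalIntegral.integral_sub (hηh _ hh) (hh.intervalIntegrable _ _)]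
        refine intervalIntegral.integral_congr fun x _ => ?_
        show (η x - 1) * h x = η x * h x - h x
        ring
      rw [h2, h0, sub_zero]
    have h3 : ∫ x in u..v, (η x - 1) * h x ≤ ∫ x in u..v, C * (1 - η x) := by
      refine intervalIntegral.integral_mono_on huv.le ?_ ?_ fun x hx => ?_
      · have h4 : (fun x => (η x - 1) * h x) = fun x => η x * h x - h x := by
          funext x
          ring
        rw [h4]
        exact (hηh _ hh).sub (hh.intervalIntegrable _ _)
      · exact (intervalIntegrable_const.sub hηi).const_mul C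
      · have h5 := hC' x hx
        have h6 := hη1 x
        have h7 := neg_abs_le (h x)
        nlinarith
    have h4 : ∫ x in u..v, C * (1 - η x) = 0 := by
      rw [intervalIntegral.integral_const_mul, intervalIntegral.integral_sub
        intervalIntegrable_const hηi, ← hA, hAe]
      simp
    rw [h1, hAe]
    have : (v - u) * (v - u - (v - u)) / 2 = 0 := by ring
    rw [this]
    linarith
  obtain ⟨D, hD⟩ : ∃ D : ℝ → ℝ, D = fun ρ => volume.real {x | x ∈ Icc u v ∧ ρ < h x} := ⟨_, rfl⟩
  have hDρ : ∀ ρ, D ρ = volume.real {x | x ∈ Icc u v ∧ ρ < h x} := fun ρ => by rw [hD]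
  have hfin : ∀ s : Set ℝ, s ⊆ Icc u v → volume s ≠ ⊤ := fun s hs =>
    ((measure_mono hs).trans_lt measure_Icc_lt_top).ne
  have hDanti : ∀ ρ ρ', ρ ≤ ρ' → D ρ' ≤ D ρ := by
    intro ρ ρ' hρ
    rw [hDρ, hDρ]
    exact measureReal_mono (fun x hx => ⟨hx.1, hρ.trans_lt hx.2⟩) (hfin _ fun x hx => hx.1)
  have hvol : volume.real (Icc u v) = v - u := by
    rw [Real.volume_real_Icc_of_le huv.le]
  have hall : ∀ ρ, (∀ x ∈ Icc u v, ρ < h x) → D ρ = v - u := by
    intro ρ hρ
    rw [hDρ, ← hvol]
    congr 1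
    ext x
    exact ⟨fun hx => hx.1, fun hx => ⟨hx, hρ x hx⟩⟩
  have hR1 : C ∈ {ρ | D ρ ≤ A} := by
    show D C ≤ A
    have : D C = 0 := by
      rw [hDρ]
      have : {x | x ∈ Icc u v ∧ C < h x} = ∅ := by
        ext x
        simp only [mem_ofPred_eq, mem_empty_iff_false, iff_false, not_and, not_lt]
        exact fun hx => (le_abs_self _).trans (hC' x hx)
      rw [this]
      simp
    rw [this]
    exact hA0
  have hR2 : BddBelow {ρ | D ρ ≤ A} := by
    refine ⟨-C - 1, fun ρ hρ => ?_⟩
    by_contra hcon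
    push Not at hcon
    have : D ρ = v - u := hall ρ fun x hx => by
      have := neg_le_of_abs_le (hC' x hx)
      linarith
    have hρ' : D ρ ≤ A := hρ
    linarith
  obtain ⟨ρ0, hρ0⟩ : ∃ ρ0, ρ0 = sInf {ρ | D ρ ≤ A} := ⟨_, rfl⟩
  have hup : ∀ ρ, ρ0 < ρ → D ρ ≤ A := by
    intro ρ hρ
    rw [hρ0] at hρ
    obtain ⟨ρ', h1, h2⟩ := exists_lt_of_csInf_lt ⟨C, hR1⟩ hρ
    exact (hDanti _ _ h2.le).trans h1
  have hlo : ∀ ρ, ρ < ρ0 → A < D ρ := by
    intro ρ hρ
    by_contra hcon
    push Not at hcon
    rw [hρ0] at hρ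
    exact absurd (csInf_le hR2 (show ρ ∈ {ρ | D ρ ≤ A} from hcon)) (not_le.mpr hρ)
  have hI : ∀ ρ, ρ0 < ρ → ∫ x in u..v, max (h x - ρ) 0 ≤ A ^ 2 / 2 := by
    intro ρ hρ
    refine hinge u v A (fun x => h x - ρ) (by fun_prop) (fun x hx y hy => ?_) ?_ ?_
    · have := hL x hx y hy
      simpa using this
    · by_contra hcon
      push Not at hcon
      have h1 := hall ρ fun x hx => by
        have := hcon x hx
        linarith
      have h2 := hup ρ hρ
      linarith
    · refine le_trans (le_of_eq ?_) (hup ρ hρ)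
      rw [hDρ]
      congr 1
      ext x
      simp only [mem_ofPred_eq, sub_pos]
  have hJ : ∀ ρ, ρ < ρ0 → ∫ x in u..v, max (ρ - h x) 0 ≤ (v - u - A) ^ 2 / 2 := by
    intro ρ hρ
    have h1 := hlo ρ hρ
    refine hinge u v (v - u - A) (fun x => ρ - h x) (by fun_prop) (fun x hx y hy => ?_) ?_ ?_
    · have := hL x hx y hy
      rw [← abs_neg] at this
      refine le_trans (le_of_eq ?_) this
      congr 1
      ring
    · by_contra hcon
      push Not at hcon
      have : D ρ = 0 := by
        rw [hDρ]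
        have : {x | x ∈ Icc u v ∧ ρ < h x} = ∅ := by
          ext x
          simp only [mem_ofPred_eq, mem_empty_iff_false, iff_false, not_and, not_lt]
          intro hx
          have := hcon x hx
          linarith
        rw [this]
        simp
      linarith
    · have hdis : Disjoint {x | x ∈ Icc u v ∧ 0 < ρ - h x} {x | x ∈ Icc u v ∧ ρ < h x} := by
        rw [Set.disjoint_left]
        rintro x ⟨_, hx1⟩ ⟨_, hx2⟩
        linarith
      have hmeas : MeasurableSet {x | x ∈ Icc u v ∧ ρ < h x} :=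
        measurableSet_Icc.inter (measurableSet_lt measurable_const hh.measurable)
      have h3 := measureReal_union (μ := volume) hdis hmeas (hfin _ fun x hx => hx.1)
        (hfin _ fun x hx => hx.1)
      have h4 : volume.real ({x | x ∈ Icc u v ∧ 0 < ρ - h x} ∪ {x | x ∈ Icc u v ∧ ρ < h x}) ≤
          v - u := by
        rw [← hvol]
        refine measureReal_mono (fun x hx => ?_) (hfin _ Subset.rfl)
        rcases hx with hx | hx
        · exact hx.1
        · exact hx.1
      rw [← hDρ] at h3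
      linarith
  refine le_of_forall_pos_le_add fun ε hε => ?_
  -- `δ`
  obtain ⟨δ, hδ, hδε⟩ : ∃ δ : ℝ, 0 < δ ∧ 2 * δ * A ≤ ε := by
    refine ⟨ε / (2 * (A + 1)), by positivity, ?_⟩
    have h1 : 2 * (ε / (2 * (A + 1))) * A = ε * (A / (A + 1)) := by
      field_simp
    rw [h1]
    have h2 : A / (A + 1) ≤ 1 := by
      rw [div_le_one (by linarith)]
      linarith
    nlinarith
  have h1 := hI (ρ0 + δ) (by linarith)
  have h2 := hJ (ρ0 - δ) (by linarith)
  have h3 := hlev (ρ0 + δ)
  have h4 : (∫ x in u..v, max (h x - (ρ0 + δ)) 0) + (ρ0 - δ) * (v - u) ≤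
      ∫ x in u..v, max ((ρ0 - δ) - h x) 0 := by
    have h5 : (∫ x in u..v, max ((ρ0 - δ) - h x) 0) =
        (∫ x in u..v, max (h x - (ρ0 - δ)) 0) + (ρ0 - δ) * (v - u) := by
      have h6 : ∫ x in u..v, max ((ρ0 - δ) - h x) 0 =
          ∫ x in u..v, (max (h x - (ρ0 - δ)) 0 + ((ρ0 - δ) - h x)) := by
        refine intervalIntegral.integral_congr fun x _ => ?_
        show max ((ρ0 - δ) - h x) 0 = max (h x - (ρ0 - δ)) 0 + ((ρ0 - δ) - h x)
        rcases le_total (h x) (ρ0 - δ) with h7 | h7
        · rw [max_eq_left (by linarith), max_eq_right (by linarith)]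
          ring
        · rw [max_eq_right (by linarith), max_eq_left (by linarith)]
          ring
      rw [h6, intervalIntegral.integral_add
        ((by fun_prop : Continuous fun x => max (h x - (ρ0 - δ)) 0).intervalIntegrable _ _)
        ((by fun_prop : Continuous fun x => (ρ0 - δ) - h x).intervalIntegrable _ _),
        intervalIntegral.integral_sub intervalIntegrable_const (hh.intervalIntegrable _ _), h0]
      rw [intervalIntegral.integral_const, smul_eq_mul]
      ring
    rw [h5]
    refine add_le_add (intervalIntegral.integral_mono_on huv.le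
      ((by fun_prop : Continuous fun x => max (h x - (ρ0 + δ)) 0).intervalIntegrable _ _)
      ((by fun_prop : Continuous fun x => max (h x - (ρ0 - δ)) 0).intervalIntegrable _ _)
      fun x _ => ?_) le_rfl
    exact max_le_max (by linarith) le_rfl
  obtain ⟨I, hIe⟩ : ∃ I, I = ∫ x in u..v, max (h x - (ρ0 + δ)) 0 := ⟨_, rfl⟩
  rw [← hIe] at h1 h3 h4
  refine h3.trans ?_
  have hl : 0 < v - u := by linarith
  -- `ρ0 l ≤ B²/2 - I + δ l`
  have h8 : ρ0 * (v - u) ≤ (v - u - A) ^ 2 / 2 - I + δ * (v - u) := by linarith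
  have h9 : ((ρ0 + δ) * A + I) * (v - u) ≤ (A * (v - u - A) / 2 + ε) * (v - u) := by
    have h10 : ρ0 * (v - u) * A ≤ ((v - u - A) ^ 2 / 2 - I + δ * (v - u)) * A :=
      mul_le_mul_of_nonneg_right h8 hA0
    have h11 : I * (v - u - A) ≤ A ^ 2 / 2 * (v - u - A) :=
      mul_le_mul_of_nonneg_right h1 (by linarith)
    have h12 : 2 * δ * A * (v - u) ≤ ε * (v - u) := mul_le_mul_of_nonneg_right hδε hl.le
    nlinarith
  exact le_of_mul_le_mul_right h9 hl

end Pool.Agent.K1H37.TP
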